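import Pool.Agent.Helper976_Bal.Vertex

set_option autoImplicit false
set_option linter.unusedSectionVars false

/-!
# The frozen sum is short, and exchanged vectors are close
-/

namespace Pool.Agent.Helper976.Bal

open Finset Module

variable {E : Type*} [NormedAddCommGroup E] [InnerProductSpace ℝ E]
variable {ι : Type*} [Fintype ι] [DecidableEq ι]

/-- The frozen part of `x`. -/
noncomputable def fr (x : ι → ℝ) (i : ι) : ℝ := by
  classical exact if i ∈ alive x then 0 else x i

lemma fr_alive {x : ι → ℝ} {i : ι} (h : i ∈ alive x) : fr x i = 0 := by simp [fr, h]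

lemma fr_frozen {x : ι → ℝ} {i : ι} (h : i ∉ alive x) : fr x i = x i := by simp [fr, h]

/-- The sum of the frozen vectors. -/
noncomputable def fsum (v : ι → E) (x : ι → ℝ) : E := ∑ i, fr x i • v i

lemma fsum_eq {v : ι → E} {x : ι → ℝ} (hx : InQ v x) :
    ∑ i ∈ alive x, x i • v i = -fsum v x := by
  have h1 : ∑ i, x i • v i = ∑ i ∈ alive x, x i • v i + ∑ i ∈ (alive x)ᶜ, x i • v i :=
    (sum_add_sum_compl _ _).symm
  have h2 : fsum v x = ∑ i ∈ alive x, fr x i • v i + ∑ i ∈ (alive x)ᶜ, fr x i • v i :=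
    (sum_add_sum_compl _ _).symm
  have h3 : ∑ i ∈ alive x, fr x i • v i = 0 := sum_eq_zero fun i hi => by simp [fr_alive hi]
  have h4 : ∑ i ∈ (alive x)ᶜ, fr x i • v i = ∑ i ∈ (alive x)ᶜ, x i • v i :=
    sum_congr rfl fun i hi => by rw [fr_frozen (mem_compl.mp hi)]
  rw [h3, h4, zero_add] at h2
  rw [hx.2, ← h2] at h1
  exact eq_neg_of_add_eq_zero_left h1.symm

lemma low_frozen {v : ι → E} {R : ℝ} (hR : Low univ v 0 R) {x : ι → ℝ} (hx : InQ v x) :
    Low (alive x) v (fsum v x) R := by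
  intro η hη
  have h1 := hR (fun i => if i ∈ alive x then η i else x i) (by
    intro i
    by_cases hi : i ∈ alive x
    · simp [hi, hη i]
    · simp only [hi, if_false]
      have := abs_eq_one_of_not_alive hx hi
      rcases abs_eq (by norm_num : (0:ℝ) ≤ 1) |>.mp this with h | h
      · exact Or.inl h
      · exact Or.inr h)
  have h2 : ∑ i, (if i ∈ alive x then η i else x i) • v i =
      fsum v x + ∑ i ∈ alive x, η i • v i := by
    rw [fsum, ← sum_add_sum_compl (alive x) (fun i => (if i ∈ alive x then η i else x i) • v i),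
      ← sum_add_sum_compl (alive x) (fun i => fr x i • v i)]
    have h3 : ∑ i ∈ alive x, fr x i • v i = 0 := sum_eq_zero fun i hi => by simp [fr_alive hi]
    have h4 : ∑ i ∈ (alive x)ᶜ, fr x i • v i =
        ∑ i ∈ (alive x)ᶜ, (if i ∈ alive x then η i else x i) • v i :=
      sum_congr rfl fun i hi => by
        have := mem_compl.mp hi
        rw [fr_frozen this, if_neg this]
    have h5 : ∑ i ∈ alive x, (if i ∈ alive x then η i else x i) • v i =
        ∑ i ∈ alive x, η i • v i := sum_congr rfl fun i hi => by rw [if_pos hi]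
    rw [h3, h4, h5, zero_add, add_comm]
  rw [zero_add, h2] at h1
  exact h1

/-- Basic facts at a point of the polytope with at most `d` alive coordinates. -/
lemma vertex_card {v : ι → E} (hv : ∀ i, ‖v i‖ = 1) {R : ℝ} (hR : Low univ v 0 R) {d : ℕ}
    (hRd : (d : ℝ) - 1 < R) {x : ι → ℝ} (hx : InQ v x) (hc : (alive x).card ≤ d) :
    (alive x).card = d ∧ ∑ i ∈ alive x, x i ^ 2 ≤ d - R := by
  have h1 := low_round v x R univ (fun i _ => hx.1 i) 0 hR
  rw [hx.2, add_zero, norm_zero] at h1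
  have h2 : ∑ i, (1 - x i ^ 2) * ‖v i‖ ^ 2 = ∑ i ∈ alive x, (1 - x i ^ 2) := by
    rw [← sum_add_sum_compl (alive x)]
    have h3 : ∑ i ∈ (alive x)ᶜ, (1 - x i ^ 2) * ‖v i‖ ^ 2 = 0 :=
      sum_eq_zero fun i hi => by
        have := abs_eq_one_of_not_alive hx (mem_compl.mp hi)
        rw [← sq_abs, this]; norm_num
    rw [h3, add_zero]
    exact sum_congr rfl fun i _ => by rw [hv i]; ring
  rw [h2, sum_sub_distrib] at h1
  simp only [sum_const, nsmul_eq_mul, mul_one] at h1
  have h4 : 0 ≤ ∑ i ∈ alive x, x i ^ 2 := sum_nonneg fun i _ => sq_nonneg _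
  have h5 : (d : ℝ) - 1 < (alive x).card := by norm_num at h1; linarith
  have h6 : d ≤ (alive x).card := by
    by_contra h
    have : (alive x).card + 1 ≤ d := by omega
    have : ((alive x).card : ℝ) + 1 ≤ d := by exact_mod_cast this
    linarith
  have h7 : (alive x).card = d := le_antisymm hc h6
  refine ⟨h7, ?_⟩
  rw [h7] at h1
  norm_num at h1
  linarith

lemma poly_ineq {U s : ℝ} (h1 : 1 / 4 < U) (h2 : U < 1 / 2) (h3 : s < U + 1 / 2) (h4 : 0 < s)
    (h : 16 * U ^ 2 * (2 - s) ≤ 2.7183 * s ^ 3) : False := by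
  have h5 : s ^ 3 ≤ (U + 1 / 2) ^ 3 := pow_le_pow_left₀ h4.le h3.le 3
  have h6 : 16 * U ^ 2 * (2 - s) ≥ 16 * U ^ 2 * (2 - (U + 1 / 2)) := by
    apply mul_le_mul_of_nonneg_left _ (by positivity)
    linarith
  nlinarith [mul_pos (sub_pos.mpr h1) (sub_pos.mpr h2), mul_pos (mul_pos (sub_pos.mpr h1) (sub_pos.mpr h2)) (sub_pos.mpr h1)]

/-- The frozen sum is short. -/
lemma frozen_short {v : ι → E} (hv : ∀ i, ‖v i‖ = 1) {R : ℝ} (hR : Low univ v 0 R) {d : ℕ}
    (hRd : (d : ℝ) - 1 / 2 < R) {x : ι → ℝ} (hx : InQ v x) (hc : (alive x).card ≤ d) :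
    ‖fsum v x‖ ^ 2 ≤ 1 / 4 := by
  obtain ⟨hcd, hX⟩ := vertex_card hv hR (by linarith) hx hc
  have hlow := low_frozen hR hx
  set S := alive x with hS
  set u := fsum v x with hu
  set X := ∑ i ∈ S, x i ^ 2 with hXdef
  have hX0 : 0 ≤ X := sum_nonneg fun i _ => sq_nonneg _
  have hxu : ∑ i ∈ S, x i • v i = -u := fsum_eq hx
  have hN : ∑ i ∈ S, ‖v i‖ ^ 2 = d := by
    simp [hv, hcd]
  have hscale : ∀ l : ℝ, ∑ i ∈ S, (l * x i) • v i = -(l • u) := by
    intro l
    simp only [mul_smul, ← smul_sum, hxu, smul_neg]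
  have hsq : ∀ l : ℝ, ∑ i ∈ S, (l * x i) ^ 2 = l ^ 2 * X := by
    intro l
    simp only [mul_pow, ← mul_sum, hXdef]
  -- the quadratic weights
  have hW : ∀ l : ℝ, 4 * l * ‖u‖ ^ 2 ≤ ((d - R) + ‖u‖ ^ 2) * (1 + l ^ 2 * X) +
      2 * l ^ 2 * (‖u‖ ^ 2 - X) := by
    intro l
    have h := low_quad v (fun i => l * x i) R S u 1 hlow
    simp only [hv, one_pow, mul_one, hscale, norm_neg, norm_smul, mul_pow, inner_neg_right,
      inner_smul_right, real_inner_self_eq_norm_sq, Real.norm_eq_abs, sq_abs] at h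
    have e : ∑ i ∈ S, l ^ 2 * x i ^ 2 = l ^ 2 * X := by rw [← mul_sum]
    simp only [sum_const, nsmul_eq_mul, mul_one, hcd, e] at h
    nlinarith [h]
  set U := ‖u‖ ^ 2 with hU
  have hU0 : 0 ≤ U := sq_nonneg _
  have hW1 := hW 1
  have hW2 := hW 2
  by_contra hcon
  push Not at hcon
  have hUe : U ≤ d - R := by nlinarith
  set s := (d - R) + U with hs
  have hs0 : 0 < s := by linarith
  have hXpos : 0 < X := by
    rcases hX0.lt_or_eq with h | h
    · exact h
    · exfalso
      have h1 : ∀ i ∈ S, x i ^ 2 = 0 := by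
        rw [← sum_eq_zero_iff_of_nonneg (fun i _ => sq_nonneg (x i))]
        exact h.symm
      have h2 : ∑ i ∈ S, x i • v i = 0 := sum_eq_zero fun i hi => by
        have := h1 i hi
        have : x i = 0 := by simpa using this
        simp [this]
      rw [hxu, neg_eq_zero] at h2
      rw [hU, h2] at hcon
      norm_num at hcon
  -- the sine weight
  have hsin : 4 * U ^ 2 ≤ 2.7183 * (s ^ 2 * X) := by
    set l := 1 / Real.sqrt X with hl
    have hl0 : 0 < l := by positivity
    have hl2 : l ^ 2 * X = 1 := by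
      rw [hl, div_pow, Real.sq_sqrt hX0]
      field_simp
    have h := low_cos v (fun i => Real.arctan (l * x i)) (fun i => l * x i) (by
      intro i
      rw [Real.sin_arctan, Real.cos_arctan]
      ring) R S u (-(Real.pi / 2)) hlow
    simp only [Real.cos_neg, Real.cos_pi_div_two, Real.sin_neg, Real.sin_pi_div_two, zero_mul,
      add_zero, mul_one, hscale, inner_neg_right, inner_smul_right, real_inner_self_eq_norm_sq,
      zero_sub, hv, one_pow] at h
    simp only [sum_const, nsmul_eq_mul, mul_one, hcd] at h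
    set C := ∏ i ∈ S, Real.cos (Real.arctan (l * x i)) with hC
    have h1 : 2 * C * l * U ≤ s := by nlinarith [h]
    have hC0 : 0 < C := prod_pos fun i _ => Real.cos_arctan_pos _
    have hC2 : Real.exp (-1) ≤ C ^ 2 := by
      rw [hC, ← prod_pow, ← hl2, ← hsq, ← sum_neg_distrib, Real.exp_sum]
      apply prod_le_prod
      · intro i _; positivity
      · intro i _
        rw [Real.cos_sq_arctan, Real.exp_neg, one_div]
        apply inv_anti₀ (by positivity)
        have := Real.add_one_le_exp ((l * x i) ^ 2)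
        linarith
    have h2 : (2 * C * l * U) ^ 2 ≤ s ^ 2 := pow_le_pow_left₀ (by positivity) h1 2
    have h3 : 4 * U ^ 2 * C ^ 2 ≤ s ^ 2 * X := by
      have : (2 * C * l * U) ^ 2 * X = 4 * U ^ 2 * C ^ 2 * (l ^ 2 * X) := by ring
      rw [hl2, mul_one] at this
      rw [← this]
      exact mul_le_mul_of_nonneg_right h2 hX0
    have h4 : 4 * U ^ 2 * Real.exp (-1) ≤ s ^ 2 * X :=
      (mul_le_mul_of_nonneg_left hC2 (by positivity)).trans h3
    have h5 : Real.exp (-1) * Real.exp 1 = 1 := by rw [← Real.exp_add]; simp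
    have h6 := Real.exp_one_lt_d9
    have h7 : 0 < Real.exp (-1) := Real.exp_pos _
    have h8 : 4 * U ^ 2 = 4 * U ^ 2 * Real.exp (-1) * Real.exp 1 := by
      rw [mul_assoc, h5, mul_one]
    have h9 : 0 ≤ s ^ 2 * X := by positivity
    calc 4 * U ^ 2 = 4 * U ^ 2 * Real.exp (-1) * Real.exp 1 := h8
      _ ≤ s ^ 2 * X * Real.exp 1 := mul_le_mul_of_nonneg_right h4 (Real.exp_pos _).le
      _ ≤ s ^ 2 * X * 2.7183 := mul_le_mul_of_nonneg_left (by linarith) h9
      _ = 2.7183 * (s ^ 2 * X) := by ring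
  have h8 : X * (8 - 4 * s) ≤ s := by nlinarith
  have h9 : 0 < 8 - 4 * s := by linarith
  have h10 : 4 * U ^ 2 * (8 - 4 * s) ≤ 2.7183 * s ^ 3 := by
    calc 4 * U ^ 2 * (8 - 4 * s) ≤ 2.7183 * (s ^ 2 * X) * (8 - 4 * s) :=
          mul_le_mul_of_nonneg_right hsin h9.le
      _ = 2.7183 * s ^ 2 * (X * (8 - 4 * s)) := by ring
      _ ≤ 2.7183 * s ^ 2 * s := mul_le_mul_of_nonneg_left h8 (by positivity)
      _ = 2.7183 * s ^ 3 := by ring
  exact poly_ineq hcon (by linarith) (by linarith) hs0 (by linarith)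

end Pool.Agent.Helper976.Bal
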