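import Mathlib

set_option autoImplicit false

/-!
# Weighted averages over signings

Three averaging lemmas for the squared norm of a signed sum, all proved by the same induction.
-/

namespace Pool.Agent.Helper976.Bal

open Finset

variable {E : Type*} [NormedAddCommGroup E] [InnerProductSpace ℝ E]
variable {ι : Type*} [DecidableEq ι]

/-- `η` is a vector of signs. -/
def Sgn {ι : Type*} (η : ι → ℝ) : Prop := ∀ i, η i = 1 ∨ η i = -1

/-- `R` bounds all signed sums over `S` with offset `w` from below. -/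
def Low (S : Finset ι) (v : ι → E) (w : E) (R : ℝ) : Prop :=
  ∀ η : ι → ℝ, Sgn η → R ≤ ‖w + ∑ i ∈ S, η i • v i‖ ^ 2

lemma Low.insert {S : Finset ι} {v : ι → E} {w : E} {R : ℝ} {a : ι} (ha : a ∉ S)
    (h : Low (insert a S) v w R) : Low S v (w + v a) R ∧ Low S v (w - v a) R := by
  constructor
  · intro η hη
    have h1 := h (Function.update η a 1) (by
      intro i
      by_cases hi : i = a
      · subst hi; simp
      · simp [hi, hη i])
    rw [sum_insert ha] at h1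
    have h2 : ∑ i ∈ S, Function.update η a 1 i • v i = ∑ i ∈ S, η i • v i := by
      refine sum_congr rfl fun i hi => ?_
      have : i ≠ a := fun e => ha (e ▸ hi)
      simp [this]
    rw [h2] at h1
    simpa [add_assoc] using h1
  · intro η hη
    have h1 := h (Function.update η a (-1)) (by
      intro i
      by_cases hi : i = a
      · subst hi; simp
      · simp [hi, hη i])
    rw [sum_insert ha] at h1
    have h2 : ∑ i ∈ S, Function.update η a (-1) i • v i = ∑ i ∈ S, η i • v i := by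
      refine sum_congr rfl fun i hi => ?_
      have : i ≠ a := fun e => ha (e ▸ hi)
      simp [this]
    rw [h2] at h1
    simpa [add_assoc, sub_eq_add_neg] using h1

lemma norm_add_sq' (x y : E) : ‖x + y‖ ^ 2 = ‖x‖ ^ 2 + 2 * inner ℝ x y + ‖y‖ ^ 2 :=
  norm_add_sq_real x y

lemma norm_sub_sq' (x y : E) : ‖x - y‖ ^ 2 = ‖x‖ ^ 2 - 2 * inner ℝ x y + ‖y‖ ^ 2 :=
  norm_sub_sq_real x y

/-- Independent rounding. -/
lemma low_round (v : ι → E) (y : ι → ℝ) (R : ℝ) (S : Finset ι) :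
    (∀ i ∈ S, |y i| ≤ 1) → ∀ w : E, Low S v w R →
      R ≤ ‖w + ∑ i ∈ S, y i • v i‖ ^ 2 + ∑ i ∈ S, (1 - y i ^ 2) * ‖v i‖ ^ 2 := by
  induction S using Finset.induction_on with
  | empty =>
    intro _ w h
    have := h (fun _ => 1) (fun _ => Or.inl rfl)
    simpa using this
  | insert a S ha ih =>
    intro hy w h
    obtain ⟨hp, hm⟩ := h.insert ha
    have hy' : ∀ i ∈ S, |y i| ≤ 1 := fun i hi => hy i (mem_insert_of_mem hi)
    have h1 := ih hy' _ hp
    have h2 := ih hy' _ hm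
    have hya := abs_le.mp (hy a (mem_insert_self _ _))
    rw [sum_insert ha, sum_insert ha]
    set Z := ∑ i ∈ S, y i • v i with hZ
    set T := ∑ i ∈ S, (1 - y i ^ 2) * ‖v i‖ ^ 2 with hT
    have e1 : ‖w + v a + Z‖ ^ 2 = ‖w + Z‖ ^ 2 + 2 * inner ℝ (w + Z) (v a) + ‖v a‖ ^ 2 := by
      rw [← norm_add_sq']; congr 2; abel
    have e2 : ‖w - v a + Z‖ ^ 2 = ‖w + Z‖ ^ 2 - 2 * inner ℝ (w + Z) (v a) + ‖v a‖ ^ 2 := by
      rw [← norm_sub_sq']; congr 2; abel
    have e3 : ‖w + (y a • v a + Z)‖ ^ 2 = ‖w + Z‖ ^ 2 + 2 * (y a * inner ℝ (w + Z) (v a)) +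
        y a ^ 2 * ‖v a‖ ^ 2 := by
      have : w + (y a • v a + Z) = (w + Z) + y a • v a := by abel
      rw [this, norm_add_sq', inner_smul_right, norm_smul, mul_pow, Real.norm_eq_abs, sq_abs]
    rw [e1] at h1
    rw [e2] at h2
    rw [e3]
    nlinarith [mul_le_mul_of_nonneg_left h1 (by linarith : (0:ℝ) ≤ (1 + y a) / 2),
      mul_le_mul_of_nonneg_left h2 (by linarith : (0:ℝ) ≤ (1 - y a) / 2)]

/-- Averaging with the weight `(β + ∑ z i * η i)²`. -/
lemma low_quad (v : ι → E) (z : ι → ℝ) (R : ℝ) (S : Finset ι) :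
    ∀ (w : E) (β : ℝ), Low S v w R →
      R * (β ^ 2 + ∑ i ∈ S, z i ^ 2) ≤
        (β ^ 2 + ∑ i ∈ S, z i ^ 2) * (‖w‖ ^ 2 + ∑ i ∈ S, ‖v i‖ ^ 2) +
        2 * ‖∑ i ∈ S, z i • v i‖ ^ 2 - 2 * ∑ i ∈ S, z i ^ 2 * ‖v i‖ ^ 2 +
        4 * β * inner ℝ w (∑ i ∈ S, z i • v i) := by
  induction S using Finset.induction_on with
  | empty =>
    intro w β h
    have := h (fun _ => 1) (fun _ => Or.inl rfl)
    simp at this ⊢
    nlinarith [mul_le_mul_of_nonneg_left this (sq_nonneg β)]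
  | insert a S ha ih =>
    intro w β h
    obtain ⟨hp, hm⟩ := h.insert ha
    have h1 := ih _ (β + z a) hp
    have h2 := ih _ (β - z a) hm
    simp only [sum_insert ha]
    set Z := ∑ i ∈ S, z i • v i with hZ
    set A := ∑ i ∈ S, z i ^ 2 with hA
    set N := ∑ i ∈ S, ‖v i‖ ^ 2 with hN
    set P := ∑ i ∈ S, z i ^ 2 * ‖v i‖ ^ 2 with hP
    rw [norm_add_sq', inner_add_left] at h1
    rw [norm_sub_sq', inner_sub_left] at h2
    have e3 : ‖z a • v a + Z‖ ^ 2 = ‖Z‖ ^ 2 + 2 * (z a * inner ℝ (v a) Z) +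
        z a ^ 2 * ‖v a‖ ^ 2 := by
      rw [add_comm, norm_add_sq', inner_smul_right, norm_smul, mul_pow, Real.norm_eq_abs, sq_abs,
        real_inner_comm]
    rw [e3, inner_add_right, inner_smul_right]
    nlinarith [h1, h2]

/-- Averaging with the weight `1 + cos (φ + ∑ θ i * η i)`. -/
lemma low_cos (v : ι → E) (θ τ : ι → ℝ) (hτ : ∀ i, Real.sin (θ i) = τ i * Real.cos (θ i)) (R : ℝ)
    (S : Finset ι) :
    ∀ (w : E) (φ : ℝ), Low S v w R →
      R * (1 + Real.cos φ * ∏ i ∈ S, Real.cos (θ i)) ≤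
        (‖w‖ ^ 2 + ∑ i ∈ S, ‖v i‖ ^ 2) + (∏ i ∈ S, Real.cos (θ i)) *
        (Real.cos φ * (‖w‖ ^ 2 + ∑ i ∈ S, ‖v i‖ ^ 2 - ‖∑ i ∈ S, τ i • v i‖ ^ 2 +
          ∑ i ∈ S, τ i ^ 2 * ‖v i‖ ^ 2) -
        2 * Real.sin φ * inner ℝ w (∑ i ∈ S, τ i • v i)) := by
  induction S using Finset.induction_on with
  | empty =>
    intro w φ h
    have := h (fun _ => 1) (fun _ => Or.inl rfl)
    simp at this ⊢
    have hc : 0 ≤ 1 + Real.cos φ := by linarith [Real.neg_one_le_cos φ]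
    nlinarith [mul_le_mul_of_nonneg_left this hc]
  | insert a S ha ih =>
    intro w φ h
    obtain ⟨hp, hm⟩ := h.insert ha
    have h1 := ih _ (φ + θ a) hp
    have h2 := ih _ (φ - θ a) hm
    simp only [sum_insert ha, prod_insert ha]
    set Z := ∑ i ∈ S, τ i • v i with hZ
    set N := ∑ i ∈ S, ‖v i‖ ^ 2 with hN
    set P := ∑ i ∈ S, τ i ^ 2 * ‖v i‖ ^ 2 with hP
    set C := ∏ i ∈ S, Real.cos (θ i) with hC
    rw [norm_add_sq', inner_add_left, Real.cos_add, Real.sin_add, hτ a] at h1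
    rw [norm_sub_sq', inner_sub_left, Real.cos_sub, Real.sin_sub, hτ a] at h2
    have e3 : ‖τ a • v a + Z‖ ^ 2 = ‖Z‖ ^ 2 + 2 * (τ a * inner ℝ (v a) Z) +
        τ a ^ 2 * ‖v a‖ ^ 2 := by
      rw [add_comm, norm_add_sq', inner_smul_right, norm_smul, mul_pow, Real.norm_eq_abs, sq_abs,
        real_inner_comm]
    rw [e3, inner_add_right, inner_smul_right]
    nlinarith [h1, h2]

end Pool.Agent.Helper976.Bal
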