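import Pool.Agent.Helper976_Bal.Pairs

set_option autoImplicit false
set_option linter.unusedSectionVars false

/-!
# The parity condition improves Beck's bound by an absolute constant
-/

namespace Pool.Agent.Helper976.Bal

open Finset Module

variable {E : Type*} [NormedAddCommGroup E] [InnerProductSpace ℝ E]
variable {ι : Type*} [Fintype ι] [DecidableEq ι]

lemma sum_one_sub_sq {g : ι → E} {x : ι → ℝ} (hx : InQ g x) (c : ι → ℝ) :
    ∑ i, (1 - x i ^ 2) * c i = ∑ i ∈ alive x, (1 - x i ^ 2) * c i := by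
  rw [← sum_add_sum_compl (alive x)]
  have h3 : ∑ i ∈ (alive x)ᶜ, (1 - x i ^ 2) * c i = 0 :=
    sum_eq_zero fun i hi => by
      have := abs_eq_one_of_not_alive hx (mem_compl.mp hi)
      rw [← sq_abs, this]; norm_num
  rw [h3, add_zero]

lemma arith {δ D Y X U : ℝ} (hδ : 1 / 2 < δ) (hD : 0 ≤ D) (hX : 0 ≤ X)
    (hXY : X ≤ 2 * Y) (hDY : D + Y ≤ 1 - δ) (hU : δ - D ≤ U)
    (hW : (1 - X) * U + 2 * Y ≤ (1 - δ - D) * (1 + X)) : False := by
  have h1 : 0 < 1 - X := by linarith
  have h2 := mul_le_mul_of_nonneg_left hU h1.le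
  nlinarith [mul_nonneg hX hD]

lemma final_stage [FiniteDimensional ℝ E] {v : ι → E} (hv : ∀ i, ‖v i‖ = 1) {R : ℝ}
    (hR : Low univ v 0 R) (hRd : (finrank ℝ E : ℝ) - 1 / 2 < R)
    (hpar : Fintype.card ι % 2 ≠ finrank ℝ E % 2)
    (hN : ∀ N : Finset ι, (∀ a ∈ N, ∀ b ∈ N, a ≠ b → ¬ Close v 1 a b) →
      N.card ≤ finrank ℝ E) : False := by
  classical
  obtain ⟨L, m, p, r, h1, -, h3, h4, h5⟩ := pairing hv 1 (univ : Finset ι)
  have hL := hN L h1
  rw [card_univ] at h3
  have hL' : L.card + 1 ≤ finrank ℝ E := by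
    have : L.card ≠ finrank ℝ E := fun e => hpar (by rw [← h3, e])
    omega
  set d := finrank ℝ E with hd
  let g : L ⊕ Fin m → E := Sum.elim (fun i => v i) (fun t => p t - r t)
  obtain ⟨x, hx, hc⟩ := beck g
  set A := alive x with hA
  -- signs on `L`
  have hext : ∀ e : L → ℝ, Sgn e → ∃ ε : ι → ℝ, Sgn ε ∧
      ∑ i ∈ L, ε i • v i = ∑ i : L, e i • v i := by
    intro e he
    refine ⟨fun i => if h : i ∈ L then e ⟨i, h⟩ else 1, ?_, ?_⟩
    · intro i
      by_cases hi : i ∈ L
      · simp only [hi, dif_pos]; exact he _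
      · simp [hi]
    · rw [← sum_coe_sort L]
      refine sum_congr rfl fun i _ => ?_
      simp
  have hlow : Low univ g 0 R := by
    intro δ hδ
    obtain ⟨ε, hε, heε⟩ := hext (fun i => δ (Sum.inl i)) (fun i => hδ _)
    obtain ⟨η, hη, he⟩ := h5 ε (fun j => δ (Sum.inr j)) (fun j => -δ (Sum.inr j)) hε
      (fun j => hδ _) (fun j => by rcases hδ (Sum.inr j) with h | h <;> simp [h])
    have := hR η hη
    rw [he, heε] at this
    rw [Fintype.sum_sum_type]
    simpa [g, smul_sub, sub_eq_add_neg] using this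
  -- the numbers
  obtain ⟨Ω, hΩ⟩ : ∃ Ω : L ⊕ Fin m → ℝ, Ω = fun a => ‖g a‖ ^ 2 := ⟨_, rfl⟩
  have hΩa : ∀ a, ‖g a‖ ^ 2 = Ω a := fun a => by rw [hΩ]
  have hΩ1 : ∀ a, Ω a ≤ 1 := by
    intro a
    rw [← hΩa]
    rcases a with i | t
    · simp [g, hv]
    · exact (h4 t).2.2
  set D := ∑ a ∈ A, (1 - Ω a) with hD
  set Y := ∑ a ∈ A, x a ^ 2 * Ω a with hY
  set X := ∑ a ∈ A, x a ^ 2 with hX
  have hD0 : 0 ≤ D := sum_nonneg fun a _ => by linarith [hΩ1 a]
  have hY0 : 0 ≤ Y := sum_nonneg fun a _ => mul_nonneg (sq_nonneg _) (by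
    rw [← hΩa]; exact sq_nonneg _)
  have hX0 : 0 ≤ X := sum_nonneg fun a _ => sq_nonneg _
  -- independent rounding
  have hP := low_round g x R univ (fun i _ => hx.1 i) 0 hlow
  rw [hx.2, add_zero, norm_zero, sum_one_sub_sq hx] at hP
  simp only [hΩa, sub_mul, one_mul] at hP
  rw [sum_sub_distrib] at hP
  have hSΩ : ∑ a ∈ A, Ω a = A.card - D := by
    rw [hD, sum_sub_distrib]; simp
  rw [← hA, hSΩ] at hP
  have hP' : R ≤ A.card - D - Y := by
    have h12 : (0 : ℝ) ^ 2 = 0 := by norm_num
    rw [h12, zero_add] at hP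
    exact hP
  have hAd : A.card = d := by
    refine le_antisymm hc ?_
    by_contra h
    have : A.card + 1 ≤ d := by omega
    have : (A.card : ℝ) + 1 ≤ d := by exact_mod_cast this
    linarith
  rw [hAd] at hP' hSΩ
  -- an alive pair
  have hpair : ∃ t₀ : Fin m, Sum.inr t₀ ∈ A := by
    by_contra h
    push Not at h
    have h6 : A ⊆ (univ : Finset L).map ⟨Sum.inl, Sum.inl_injective⟩ := by
      intro a ha
      rcases a with i | t
      · simp
      · exact absurd ha (h t)
    have h7 := card_le_card h6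
    rw [card_map, card_univ, Fintype.card_coe] at h7
    omega
  obtain ⟨t₀, ht₀⟩ := hpair
  set u := fsum g x with hu
  have hlowA := low_frozen hlow hx
  have hxu : ∑ a ∈ A, x a • g a = -u := fsum_eq hx
  -- quadratic weights along `x`
  have hW : (1 - X) * ‖u‖ ^ 2 + 2 * Y ≤ (1 - (R - d + 1) - D) * (1 + X) := by
    have h := low_quad g x R A u 1 hlowA
    rw [hxu, norm_neg, inner_neg_right, real_inner_self_eq_norm_sq] at h
    simp only [hΩa] at h
    rw [hSΩ, ← hY, ← hX] at h
    nlinarith [h]
  -- kernel weights with one pair split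
  have hK : R ≤ ‖u‖ ^ 2 + d - 1 + D := by
    obtain ⟨h, hh⟩ : ∃ h : Option (L ⊕ Fin m) → E, h = fun o =>
      o.elim (r t₀) (fun a => if a = Sum.inr t₀ then p t₀ else g a) := ⟨_, rfl⟩
    have hnone : h none = r t₀ := by rw [hh]; rfl
    have hsome : ∀ a, h (some a) = if a = Sum.inr t₀ then p t₀ else g a := fun a => by
      rw [hh]; rfl
    have hlowh : Low univ h 0 R := by
      intro δ hδ
      obtain ⟨ε, hε, heε⟩ := hext (fun i => δ (some (Sum.inl i))) (fun i => hδ _)
      obtain ⟨η, hη, he⟩ := h5 ε (fun t => δ (some (Sum.inr t)))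
        (fun t => if t = t₀ then δ none else -δ (some (Sum.inr t))) hε
        (fun j => hδ _) (fun j => by
          by_cases hj : j = t₀
          · simp only [hj, if_true]; exact hδ _
          · simp only [hj, if_false]
            rcases hδ (some (Sum.inr j)) with h | h <;> simp [h])
      have := hR η hη
      rw [he, heε] at this
      rw [Fintype.sum_option, Fintype.sum_sum_type]
      have e1 : ∀ t, δ (some (Sum.inr t)) • p t +
          (if t = t₀ then δ none else -δ (some (Sum.inr t))) • r t =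
          δ (some (Sum.inr t)) • h (some (Sum.inr t)) +
            (if t = t₀ then δ none • r t₀ else 0) := by
        intro t
        rw [hsome]
        by_cases ht : t = t₀
        · subst ht; simp
        · have : (Sum.inr t : L ⊕ Fin m) ≠ Sum.inr t₀ := fun e => ht (Sum.inr_injective e)
          rw [if_neg ht, if_neg ht, if_neg this]
          simp [g, sub_eq_add_neg]
      simp only [e1, sum_add_distrib, sum_ite_eq', mem_univ, if_true] at this
      have e2 : ∀ i : L, h (some (Sum.inl i)) = v i := by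
        intro i; rw [hsome, if_neg (by simp)]; rfl
      simp only [e2, hnone]
      have e3 : (0 : E) + ((∑ i : L, δ (some (Sum.inl i)) • v i) +
          ((∑ t, δ (some (Sum.inr t)) • h (some (Sum.inr t))) + δ none • r t₀)) =
          0 + (δ none • r t₀ + ((∑ i : L, δ (some (Sum.inl i)) • v i) +
          ∑ t, δ (some (Sum.inr t)) • h (some (Sum.inr t)))) := by abel
      rw [← e3]
      exact this
    have hlowA' : Low (insertNone A) h u R := by
      intro η hη
      have h6 := hlowh (fun o => if o ∈ insertNone A then η o else o.elim 1 x) (by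
        intro o
        by_cases ho : o ∈ insertNone A
        · simp only [ho, if_true]; exact hη o
        · simp only [ho, if_false]
          rcases o with - | a
          · simp at ho
          · have ha : a ∉ A := by simpa using ho
            have := abs_eq_one_of_not_alive hx ha
            exact (abs_eq (by norm_num : (0:ℝ) ≤ 1)).mp this)
      rw [Fintype.sum_option] at h6
      have e1 : ∑ a, (if some a ∈ insertNone A then η (some a) else (some a).elim 1 x) •
          h (some a) = u + ∑ a ∈ A, η (some a) • h (some a) := by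
        rw [hu, fsum, ← sum_add_sum_compl A (fun a => fr x a • g a),
          ← sum_add_sum_compl A (fun a => (if some a ∈ insertNone A then η (some a) else
            (some a).elim 1 x) • h (some a))]
        have f1 : ∑ a ∈ A, fr x a • g a = 0 := sum_eq_zero fun a ha => by
          rw [fr_alive ha, zero_smul]
        have f2 : ∑ a ∈ A, (if some a ∈ insertNone A then η (some a) else (some a).elim 1 x) •
            h (some a) = ∑ a ∈ A, η (some a) • h (some a) :=
          sum_congr rfl fun a ha => by simp [ha]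
        have f3 : ∑ a ∈ Aᶜ, (if some a ∈ insertNone A then η (some a) else (some a).elim 1 x) •
            h (some a) = ∑ a ∈ Aᶜ, fr x a • g a :=
          sum_congr rfl fun a ha => by
            have ha' : a ∉ A := mem_compl.mp ha
            have ha'' : a ≠ Sum.inr t₀ := fun e => ha' (e ▸ ht₀)
            rw [hsome, if_neg ha'', fr_frozen ha']
            simp [ha']
        rw [f1, f2, f3, zero_add, add_comm]
      rw [e1] at h6
      rw [sum_insertNone]
      have e2 : (0 : E) + ((if none ∈ insertNone A then η none else (none : Option (L ⊕ Fin m)).elim 1 x) • h none +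
          (u + ∑ a ∈ A, η (some a) • h (some a))) =
          u + (η none • h none + ∑ a ∈ A, η (some a) • h (some a)) := by
        simp only [none_mem_insertNone, if_true]
        abel
      rw [← e2]
      exact h6
    obtain ⟨z, hz0, hz1, hz2⟩ := dep h (insertNone A) (by
      rw [card_insertNone, hAd]; omega)
    have hzA : ∑ o ∈ insertNone A, z o • h o = 0 := by
      rw [← hz2]
      exact sum_subset (subset_univ _) fun o _ ho => by rw [hz1 o ho, zero_smul]
    have hquad := low_quad h z R (insertNone A) u 0 hlowA'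
    rw [hzA] at hquad
    simp only [norm_zero, inner_zero_right, mul_zero, add_zero] at hquad
    have hz02 : (0:ℝ) ^ 2 = 0 := by norm_num
    simp only [hz02, zero_add, mul_zero] at hquad
    set Z := ∑ o ∈ insertNone A, z o ^ 2 with hZ
    have hZpos : 0 < Z := by
      obtain ⟨o, ho⟩ := hz0
      have hoA : o ∈ insertNone A := by
        by_contra h
        exact ho (hz1 o h)
      have h7 : z o ^ 2 ≤ Z := single_le_sum (f := fun o => z o ^ 2)
        (fun i _ => sq_nonneg _) hoA
      have : 0 < z o ^ 2 := by positivity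
      linarith
    -- norms
    have hΩ0 : Ω (Sum.inr t₀) ≤ 1 := hΩ1 _
    have hDt : ∀ a ∈ A, a ≠ Sum.inr t₀ → (1 - Ω a) + (1 - Ω (Sum.inr t₀)) ≤ D := by
      intro a ha hat
      rw [hD, ← add_sum_erase A _ ht₀]
      have ha' : a ∈ A.erase (Sum.inr t₀) := mem_erase.mpr ⟨hat, ha⟩
      have := single_le_sum (f := fun a => 1 - Ω a) (s := A.erase (Sum.inr t₀))
        (fun i _ => by linarith [hΩ1 i]) ha'
      linarith
    have hD1 : 1 - Ω (Sum.inr t₀) ≤ D :=
      single_le_sum (f := fun a => 1 - Ω a) (fun i _ => by linarith [hΩ1 i]) ht₀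
    have hsumh : ∑ o ∈ insertNone A, ‖h o‖ ^ 2 = 2 + (d - D) - Ω (Sum.inr t₀) := by
      rw [sum_insertNone, hnone, (h4 t₀).2.1, ← add_sum_erase A _ ht₀, hsome, if_pos rfl,
        (h4 t₀).1]
      have e1 : ∑ a ∈ A.erase (Sum.inr t₀), ‖h (some a)‖ ^ 2 =
          ∑ a ∈ A.erase (Sum.inr t₀), Ω a := sum_congr rfl fun a ha => by
        rw [hsome, if_neg (ne_of_mem_erase ha), hΩa]
      rw [e1]
      have e2 := add_sum_erase A Ω ht₀
      rw [hSΩ] at e2
      linarith
    have hκ : ∀ o ∈ insertNone A, 1 - D + (1 - Ω (Sum.inr t₀)) ≤ ‖h o‖ ^ 2 := by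
      intro o ho
      rcases o with - | a
      · rw [hnone, (h4 t₀).2.1]; linarith
      · have ha : a ∈ A := by simpa using ho
        rw [hsome]
        by_cases hat : a = Sum.inr t₀
        · rw [if_pos hat, (h4 t₀).1]; linarith
        · rw [if_neg hat, hΩa]
          linarith [hDt a ha hat]
    have hsz : (1 - D + (1 - Ω (Sum.inr t₀))) * Z ≤ ∑ o ∈ insertNone A, z o ^ 2 * ‖h o‖ ^ 2 := by
      rw [hZ, mul_sum]
      refine sum_le_sum fun o ho => ?_
      rw [mul_comm]
      exact mul_le_mul_of_nonneg_left (hκ o ho) (sq_nonneg _)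
    rw [hsumh] at hquad
    have h8 : R * Z ≤ (‖u‖ ^ 2 + d - 1 + D) * Z := by nlinarith
    exact le_of_mul_le_mul_right h8 hZpos
  have hXY : X ≤ 2 * Y := by
    rw [hX, hY, mul_sum]
    refine sum_le_sum fun a ha => ?_
    have : 1 - Ω a ≤ D := single_le_sum (f := fun a => 1 - Ω a) (fun i _ => by linarith [hΩ1 i]) ha
    have : 1 / 2 ≤ Ω a := by linarith
    nlinarith [sq_nonneg (x a)]
  exact arith (δ := R - d + 1) (by linarith) hD0 hX0 hXY (by linarith) (by linarith) hW

/-- The main bound. -/
theorem main [FiniteDimensional ℝ E] (v : ι → E) (hv : ∀ i, ‖v i‖ = 1)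
    (hpar : Fintype.card ι % 2 ≠ finrank ℝ E % 2) :
    ∃ η : ι → ℝ, Sgn η ∧ ‖∑ i, η i • v i‖ ^ 2 ≤ finrank ℝ E - 1 / 2 := by
  classical
  let sg : (ι → Bool) → ι → ℝ := fun b i => if b i then 1 else -1
  obtain ⟨b, -, hb⟩ := exists_min_image (univ : Finset (ι → Bool))
    (fun b => ‖∑ i, sg b i • v i‖ ^ 2) ⟨fun _ => true, mem_univ _⟩
  refine ⟨sg b, fun i => by simp only [sg]; split_ifs <;> simp, ?_⟩
  set R := ‖∑ i, sg b i • v i‖ ^ 2 with hRdef
  have hR : Low univ v 0 R := by
    intro η hη
    have := hb (fun i => decide (η i = 1)) (mem_univ _)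
    have e : ∀ i, sg (fun i => decide (η i = 1)) i = η i := by
      intro i
      simp only [sg, decide_eq_true_eq]
      rcases hη i with h | h
      · simp [h]
      · rw [h]; norm_num
    simp only [e] at this
    rw [zero_add]
    exact this
  by_contra hcon
  push Not at hcon
  have hshort : ∀ x, InQ v x → (alive x).card ≤ finrank ℝ E → ‖fsum v x‖ ≤ 1 / 2 := by
    intro x hx hc
    have h := frozen_short hv hR hcon hx hc
    have : ‖fsum v x‖ ^ 2 ≤ (1 / 2) ^ 2 := by linarith
    exact abs_le_of_sq_le_sq' this (by norm_num) |>.2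
  refine final_stage hv hR hcon hpar ?_
  intro N hN
  exact indep_card hv hR (by linarith) hshort (by norm_num) (by norm_num) (by norm_num) N hN

end Pool.Agent.Helper976.Bal
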