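import Pool.Agent.Helper976_Bal.Exchange

set_option autoImplicit false
set_option linter.unusedSectionVars false

/-!
# Exchanging vertices, close pairs, and independent sets
-/

namespace Pool.Agent.Helper976.Bal

open Finset Module

variable {E : Type*} [NormedAddCommGroup E] [InnerProductSpace ℝ E]
variable {ι : Type*} [Fintype ι] [DecidableEq ι]

/-- `v i` and `± v j` are close. -/
def Close (v : ι → E) (ρ : ℝ) (i j : ι) : Prop :=
  ∃ σ : ℝ, (σ = 1 ∨ σ = -1) ∧ ‖v i - σ • v j‖ ^ 2 ≤ ρ

lemma Close.symm {v : ι → E} {ρ : ℝ} {i j : ι} (h : Close v ρ i j) : Close v ρ j i := by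
  obtain ⟨σ, hσ, h⟩ := h
  refine ⟨σ, hσ, ?_⟩
  have h1 : v j - σ • v i = -(σ • (v i - σ • v j)) := by
    have : σ * σ = 1 := by rcases hσ with rfl | rfl <;> norm_num
    rw [smul_sub, smul_smul, this, one_smul]
    abel
  have h2 : |σ| = 1 := by rcases hσ with rfl | rfl <;> norm_num
  rw [h1, norm_neg, norm_smul, Real.norm_eq_abs, h2, one_mul]
  exact h

/-- One exchange step. -/
lemma exchange [FiniteDimensional ℝ E] {v : ι → E} (hv : ∀ i, ‖v i‖ = 1) {R : ℝ}
    (hR : Low univ v 0 R) {c ρ : ℝ} (hRd : (finrank ℝ E : ℝ) - 1 < R)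
    (hshort : ∀ x, InQ v x → (alive x).card ≤ finrank ℝ E → ‖fsum v x‖ ≤ c) (hc0 : 0 ≤ c)
    (hc1 : c < 1) (hcρ : (2 * c) ^ 2 ≤ ρ)
    {x : ι → ℝ} (hx : InQ v x) (hc : (alive x).card ≤ finrank ℝ E) {i : ι} (hi : i ∉ alive x) :
    ∃ (x' : ι → ℝ) (j : ι), InQ v x' ∧ (alive x').card ≤ finrank ℝ E ∧ j ∈ alive x ∧
      alive x' = insert i ((alive x).erase j) ∧ Close v ρ i j := by
  set d := finrank ℝ E with hd
  obtain ⟨hcd, -⟩ := vertex_card hv hR hRd hx hc
  obtain ⟨z, hz0, hz1, hz2⟩ := dep v (insert i (alive x)) (by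
    rw [card_insert_of_notMem hi, hcd]; omega)
  have hzi : z i ≠ 0 := by
    intro h0
    obtain ⟨x', hx', hlt⟩ := reduce hx hz2 hz0 (by
      intro l hl
      by_cases hli : l = i
      · rw [hli, h0]
      · exact hz1 l (by simp [hli, hl]))
    have h1 := Finset.card_lt_card hlt
    have h2 := (vertex_card hv hR hRd hx' (by omega)).1
    omega
  have hxi : |x i| = 1 := abs_eq_one_of_not_alive hx hi
  have hxi2 : x i * x i = 1 := by
    have : |x i| * |x i| = 1 := by rw [hxi]; norm_num
    rwa [abs_mul_abs_self] at this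
  have hxi0 : x i ≠ 0 := by intro h; rw [h] at hxi2; norm_num at hxi2
  -- rescale
  obtain ⟨y, hy⟩ : ∃ y : ι → ℝ, y = fun l => -(x i / z i) * z l := ⟨_, rfl⟩
  have hyi : y i = -x i := by rw [hy]; field_simp
  have hy1 : ∀ l, l ∉ insert i (alive x) → y l = 0 := by
    intro l hl; rw [hy]; simp [hz1 l hl]
  have hy2 : ∑ l, y l • v l = 0 := by
    rw [hy]
    simp only [mul_smul, ← smul_sum, hz2, smul_zero]
  obtain ⟨T, j, hT, hyj, h1, h2, h3⟩ := hit x y hx.1 ⟨i, by rw [hyi]; exact neg_ne_zero.mpr hxi0⟩
  obtain ⟨x', hx'⟩ : ∃ x' : ι → ℝ, x' = fun l => x l + T * y l := ⟨_, rfl⟩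
  have hx'l : ∀ l, x' l = x l + T * y l := fun l => by rw [hx']
  have hQ' : InQ v x' := by rw [hx']; exact inQ_add hx hy2 (h3 T hT le_rfl)
  have hj1 : |x' j| = 1 := by rw [hx'l]; exact h1
  have hj2 : 0 < y j * x' j := by rw [hx'l]; exact h2
  have hout : ∀ l, l ∉ insert i (alive x) → x' l = x l := by
    intro l hl
    rw [hx'l, hy1 l hl]; ring
  have hnot : ∀ l, l ∉ insert i (alive x) → l ∉ alive x' := by
    intro l hl
    rw [mem_alive, hout l hl, ← mem_alive]
    intro h
    exact hl (mem_insert_of_mem h)
  have hjn : j ∉ alive x' := by rw [mem_alive, hj1]; exact lt_irrefl _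
  by_cases hji : j = i
  · -- the whole vector is flipped: impossible
    exfalso
    subst hji
    have hx'j : x' j = -x j := by
      have e1 : x' j = x j * (1 - T) := by rw [hx'l, hyi]; ring
      rw [hyi, e1] at hj2
      have e2 : -x j * (x j * (1 - T)) = -(x j * x j) * (1 - T) := by ring
      rw [e2, hxi2] at hj2
      rw [e1, abs_mul, hxi, one_mul] at hj1
      have e3 : T > 1 := by linarith
      rw [abs_of_neg (by linarith)] at hj1
      have : T = 2 := by linarith
      rw [e1, this]; ring
    have hsub : alive x' ⊆ alive x := by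
      intro l hl
      by_contra h
      by_cases hlj : l = j
      · rw [hlj] at hl; exact hjn hl
      · exact hnot l (by simp [hlj, h]) hl
    have hc' : (alive x').card ≤ d := (card_le_card hsub).trans hc
    have hcd' := (vertex_card hv hR hRd hQ' hc').1
    have heq : alive x' = alive x := eq_of_subset_of_card_le hsub (by omega)
    have hs1 := hshort x hx hc
    have hs2 := hshort x' hQ' hc'
    have hdiff : fsum v x - fsum v x' = (2 * x j) • v j := by
      unfold fsum
      rw [← sum_sub_distrib, sum_eq_single j]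
      · rw [fr_frozen hi, fr_frozen hjn, hx'j, ← sub_smul]; congr 1; ring
      · intro l _ hlj
        by_cases hl : l ∈ alive x
        · rw [fr_alive hl, fr_alive (heq ▸ hl)]; simp
        · rw [fr_frozen hl, fr_frozen (heq ▸ hl), hout l (by simp [hlj, hl])]; simp
      · simp
    have h5 : ‖fsum v x - fsum v x'‖ = 2 := by
      rw [hdiff, norm_smul, hv j, Real.norm_eq_abs, abs_mul, hxi]; norm_num
    have h6 := norm_sub_le (fsum v x) (fsum v x')
    linarith
  · have hjm : j ∈ insert i (alive x) := by
      by_contra h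
      exact hyj (hy1 j h)
    have hja : j ∈ alive x := by
      rcases mem_insert.mp hjm with h | h
      · exact absurd h hji
      · exact h
    have hsub : alive x' ⊆ insert i ((alive x).erase j) := by
      intro l hl
      by_contra h
      have hlj : l ≠ j := fun e => hjn (e ▸ hl)
      have : l ∉ insert i (alive x) := by
        intro h'
        rcases mem_insert.mp h' with h'' | h''
        · exact h (by rw [h'']; exact mem_insert_self _ _)
        · exact h (mem_insert_of_mem (mem_erase.mpr ⟨hlj, h''⟩))
      exact hnot l this hl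
    have hcard : (insert i ((alive x).erase j)).card = d := by
      have h0 : i ∉ (alive x).erase j := fun h => hi (mem_of_mem_erase h)
      have h1 : 0 < (alive x).card := card_pos.mpr ⟨j, hja⟩
      rw [card_insert_of_notMem h0, card_erase_of_mem hja]
      omega
    have hc' : (alive x').card ≤ d := (card_le_card hsub).trans hcard.le
    have hcd' := (vertex_card hv hR hRd hQ' hc').1
    have heq : alive x' = insert i ((alive x).erase j) :=
      eq_of_subset_of_card_le hsub (by omega)
    refine ⟨x', j, hQ', hc', hja, heq, ?_⟩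
    have hs1 := hshort x hx hc
    have hs2 := hshort x' hQ' hc'
    have hii : i ∈ alive x' := by rw [heq]; exact mem_insert_self _ _
    have hdiff : fsum v x - fsum v x' = x i • v i - x' j • v j := by
      unfold fsum
      rw [← sum_sub_distrib]
      have e1 : ∀ l, fr x l • v l - fr x' l • v l =
          (if l = i then x i • v i else 0) - (if l = j then x' j • v j else 0) := by
        intro l
        by_cases hli : l = i
        · subst hli
          rw [fr_frozen hi, fr_alive hii, if_pos rfl, if_neg (Ne.symm hji)]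
          simp
        · rw [if_neg hli]
          by_cases hlj : l = j
          · subst hlj
            rw [fr_alive hja, fr_frozen hjn, if_pos rfl]
            simp
          · rw [if_neg hlj]
            by_cases hl : l ∈ alive x
            · have : l ∈ alive x' := by
                rw [heq]; exact mem_insert_of_mem (mem_erase.mpr ⟨hlj, hl⟩)
              rw [fr_alive hl, fr_alive this]; simp
            · have h7 : l ∉ insert i (alive x) := by simp [hli, hl]
              rw [fr_frozen hl, fr_frozen (hnot l h7), hout l h7]; simp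
      simp only [e1, sum_sub_distrib, sum_ite_eq', mem_univ, if_true]
    have hσ : x i * x' j = 1 ∨ x i * x' j = -1 := by
      have : |x i * x' j| = 1 := by rw [abs_mul, hxi, hj1, one_mul]
      exact (abs_eq (by norm_num : (0:ℝ) ≤ 1)).mp this
    refine ⟨x i * x' j, hσ, ?_⟩
    have e2 : v i - (x i * x' j) • v j = x i • (fsum v x - fsum v x') := by
      rw [hdiff, smul_sub, smul_smul, hxi2, one_smul, smul_smul]
    rw [e2, norm_smul, Real.norm_eq_abs, hxi, one_mul]
    refine le_trans ?_ hcρ
    apply pow_le_pow_left₀ (norm_nonneg _)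
    have h6 := norm_sub_le (fsum v x) (fsum v x')
    linarith

/-- Pairwise far families have at most `d` members. -/
lemma indep_card [FiniteDimensional ℝ E] {v : ι → E} (hv : ∀ i, ‖v i‖ = 1) {R : ℝ}
    (hR : Low univ v 0 R) {c ρ : ℝ} (hRd : (finrank ℝ E : ℝ) - 1 < R)
    (hshort : ∀ x, InQ v x → (alive x).card ≤ finrank ℝ E → ‖fsum v x‖ ≤ c) (hc0 : 0 ≤ c)
    (hc1 : c < 1) (hcρ : (2 * c) ^ 2 ≤ ρ) (N : Finset ι)
    (hN : ∀ a ∈ N, ∀ b ∈ N, a ≠ b → ¬ Close v ρ a b) : N.card ≤ finrank ℝ E := by
  have key : ∀ m : ℕ, ∀ x : ι → ℝ, InQ v x → (alive x).card ≤ finrank ℝ E →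
      (N \ alive x).card ≤ m → N.card ≤ finrank ℝ E := by
    intro m
    induction m with
    | zero =>
      intro x hx hc h
      have h1 : N \ alive x = ∅ := card_eq_zero.mp (by omega)
      have h2 : N ⊆ alive x := sdiff_eq_empty_iff_subset.mp h1
      exact (card_le_card h2).trans hc
    | succ m ih =>
      intro x hx hc h
      by_cases h0 : N ⊆ alive x
      · exact (card_le_card h0).trans hc
      · obtain ⟨i, hiN, hi⟩ := not_subset.mp h0
        obtain ⟨x', j, hx', hc', hja, heq, hcl⟩ :=
          exchange hv hR hRd hshort hc0 hc1 hcρ hx hc hi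
        have hij : i ≠ j := fun e => hi (e ▸ hja)
        have hjN : j ∉ N := fun hj => hN i hiN j hj hij hcl
        refine ih x' hx' hc' ?_
        have h3 : N \ alive x' ⊆ (N \ alive x).erase i := by
          intro l hl
          rw [heq] at hl
          simp only [mem_sdiff, mem_insert, mem_erase, not_or, not_and] at hl
          simp only [mem_erase, mem_sdiff]
          refine ⟨hl.2.1, hl.1, ?_⟩
          intro h4
          exact hl.2.2 (fun e => hjN (e ▸ hl.1)) h4
        have h4 : i ∈ N \ alive x := mem_sdiff.mpr ⟨hiN, hi⟩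
        have h5 := card_le_card h3
        rw [card_erase_of_mem h4] at h5
        omega
  obtain ⟨x, hx, hc⟩ := beck v
  exact key _ x hx hc le_rfl

/-- Greedy pairing of close vectors. -/
lemma pairing {v : ι → E} (hv : ∀ i, ‖v i‖ = 1) (ρ : ℝ) (S : Finset ι) :
    ∃ (L : Finset ι) (m : ℕ) (p r : Fin m → E),
      (∀ a ∈ L, ∀ b ∈ L, a ≠ b → ¬ Close v ρ a b) ∧ L ⊆ S ∧ L.card % 2 = S.card % 2 ∧
      (∀ t, ‖p t‖ = 1 ∧ ‖r t‖ = 1 ∧ ‖p t - r t‖ ^ 2 ≤ ρ) ∧
      ∀ (ε : ι → ℝ) (δ δ' : Fin m → ℝ), Sgn ε → Sgn δ → Sgn δ' →
        ∃ η : ι → ℝ, Sgn η ∧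
          ∑ i ∈ S, η i • v i = ∑ i ∈ L, ε i • v i + ∑ t, (δ t • p t + δ' t • r t) := by
  induction S using Finset.induction_on with
  | empty =>
    refine ⟨∅, 0, Fin.elim0, Fin.elim0, by simp, by simp, rfl, fun j => j.elim0, ?_⟩
    intro ε δ δ' hε _ _
    exact ⟨ε, hε, by simp⟩
  | insert a S ha ih =>
    obtain ⟨L, m, p, r, h1, h2, h3, h4, h5⟩ := ih
    have haL : a ∉ L := fun h => ha (h2 h)
    by_cases hb : ∃ b ∈ L, Close v ρ a b
    · obtain ⟨b, hbL, σ, hσ, hcl⟩ := hb
      have hσ1 : |σ| = 1 := by rcases hσ with rfl | rfl <;> norm_num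
      refine ⟨L.erase b, m + 1, Fin.cons (v a) p, Fin.cons (σ • v b) r, ?_, ?_, ?_, ?_, ?_⟩
      · intro p hp q hq
        exact h1 p (mem_of_mem_erase hp) q (mem_of_mem_erase hq)
      · exact (erase_subset _ _).trans (h2.trans (subset_insert _ _))
      · rw [card_erase_of_mem hbL, card_insert_of_notMem ha]
        have : 0 < L.card := card_pos.mpr ⟨b, hbL⟩
        omega
      · intro j
        refine Fin.cases ?_ (fun j => ?_) j
        · refine ⟨by simpa using hv a, ?_, by simpa using hcl⟩
          simp [norm_smul, hσ1, hv b]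
        · simpa using h4 j
      · intro ε δ δ' hε hδ hδ'
        have hs : Sgn (Function.update ε b (δ' 0 * σ)) := by
          intro i
          by_cases hi : i = b
          · subst hi
            rcases hδ' 0 with h | h <;> rcases hσ with h' | h' <;> simp [h, h']
          · simp [hi, hε i]
        obtain ⟨η, hη, he⟩ := h5 (Function.update ε b (δ' 0 * σ)) (fun j => δ j.succ)
          (fun j => δ' j.succ) hs (fun j => hδ _) (fun j => hδ' _)
        refine ⟨Function.update η a (δ 0), ?_, ?_⟩
        · intro i
          by_cases hi : i = a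
          · subst hi; simpa using hδ 0
          · simp [hi, hη i]
        · rw [sum_insert ha, Fin.sum_univ_succ]
          have e1 : ∑ i ∈ S, Function.update η a (δ 0) i • v i = ∑ i ∈ S, η i • v i :=
            sum_congr rfl fun i hi => by
              have : i ≠ a := fun e => ha (e ▸ hi)
              simp [this]
          have e2 : ∑ i ∈ L, Function.update ε b (δ' 0 * σ) i • v i =
              (δ' 0 * σ) • v b + ∑ i ∈ L.erase b, ε i • v i := by
            rw [← add_sum_erase L _ hbL]
            simp only [Function.update_self]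
            congr 1
            refine sum_congr rfl fun i hi => ?_
            simp [ne_of_mem_erase hi]
          rw [e1, he, e2]
          simp only [Function.update_self, Fin.cons_zero, Fin.cons_succ, smul_smul]
          abel
    · push Not at hb
      refine ⟨insert a L, m, p, r, ?_, insert_subset_insert _ h2, ?_, h4, ?_⟩
      · intro p hp q hq hpq
        rcases mem_insert.mp hp with hpa | hpL
        · rcases mem_insert.mp hq with hqa | hqL
          · exact absurd (hpa.trans hqa.symm) hpq
          · rw [hpa]; exact hb q hqL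
        · rcases mem_insert.mp hq with hqa | hqL
          · rw [hqa]; exact fun h => hb p hpL h.symm
          · exact h1 p hpL q hqL hpq
      · rw [card_insert_of_notMem haL, card_insert_of_notMem ha]
        omega
      · intro ε δ δ' hε hδ hδ'
        obtain ⟨η, hη, he⟩ := h5 ε δ δ' hε hδ hδ'
        refine ⟨Function.update η a (ε a), ?_, ?_⟩
        · intro i
          by_cases hi : i = a
          · subst hi; simpa using hε i
          · simp [hi, hη i]
        · rw [sum_insert ha, sum_insert haL]
          have e1 : ∑ i ∈ S, Function.update η a (ε a) i • v i = ∑ i ∈ S, η i • v i :=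
            sum_congr rfl fun i hi => by
              have : i ≠ a := fun e => ha (e ▸ hi)
              simp [this]
          rw [e1, he]
          simp [add_assoc]

end Pool.Agent.Helper976.Bal
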