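import Pool.Agent.Helper976_Bal.Lemmas

set_option autoImplicit false

/-!
# Vertices of the polytope of fractional signings
-/

namespace Pool.Agent.Helper976.Bal

open Finset Module

variable {E : Type*} [NormedAddCommGroup E] [InnerProductSpace ℝ E]
variable {ι : Type*} [Fintype ι] [DecidableEq ι]

/-- `x` is a fractional signing with sum zero. -/
def InQ (v : ι → E) (x : ι → ℝ) : Prop := (∀ i, |x i| ≤ 1) ∧ ∑ i, x i • v i = 0

/-- The coordinates that are not yet `±1`. -/
noncomputable def alive (x : ι → ℝ) : Finset ι := by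
  classical exact univ.filter (fun i => |x i| < 1)

lemma mem_alive {x : ι → ℝ} {i : ι} : i ∈ alive x ↔ |x i| < 1 := by
  simp [alive]

lemma abs_eq_one_of_not_alive {v : ι → E} {x : ι → ℝ} (hx : InQ v x) {i : ι} (hi : i ∉ alive x) :
    |x i| = 1 := by
  rw [mem_alive] at hi
  exact le_antisymm (hx.1 i) (not_lt.mp hi)

/-- Move along a direction until a coordinate becomes `±1`. -/
lemma hit (x z : ι → ℝ) (hx : ∀ i, |x i| ≤ 1) (hz : ∃ i, z i ≠ 0) :
    ∃ (T : ℝ) (j : ι), 0 ≤ T ∧ z j ≠ 0 ∧ |x j + T * z j| = 1 ∧ 0 < z j * (x j + T * z j) ∧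
      ∀ t, 0 ≤ t → t ≤ T → ∀ i, |x i + t * z i| ≤ 1 := by
  classical
  obtain ⟨i₀, hi₀⟩ := hz
  let s : ι → ℝ := fun i => if 0 < z i then 1 else -1
  have hs2 : ∀ i, s i * s i = 1 := by
    intro i; simp only [s]; split_ifs <;> norm_num
  have hsabs : ∀ i, |s i| = 1 := by
    intro i; simp only [s]; split_ifs <;> norm_num
  have hsz : ∀ i, s i * z i = |z i| := by
    intro i; simp only [s]; split_ifs with h
    · rw [one_mul, abs_of_pos h]
    · rw [abs_of_nonpos (not_lt.mp h)]; ring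
  have hsx : ∀ i, -1 ≤ s i * x i ∧ s i * x i ≤ 1 := by
    intro i
    have := abs_le.mp (hx i)
    simp only [s]; split_ifs <;> constructor <;> linarith [this.1, this.2]
  obtain ⟨j, hj, hmin⟩ := exists_min_image (univ.filter (fun i => z i ≠ 0))
    (fun i => (1 - s i * x i) / |z i|) ⟨i₀, by simp [hi₀]⟩
  have hzj : z j ≠ 0 := by simpa using hj
  have hzj' : 0 < |z j| := abs_pos.mpr hzj
  refine ⟨(1 - s j * x j) / |z j|, j, div_nonneg (by linarith [(hsx j).2]) hzj'.le, hzj, ?_⟩
  have e1 : s j * (x j + (1 - s j * x j) / |z j| * z j) = 1 := by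
    have : s j * (x j + (1 - s j * x j) / |z j| * z j) =
        s j * x j + (1 - s j * x j) / |z j| * (s j * z j) := by ring
    rw [this, hsz, div_mul_cancel₀ _ hzj'.ne']
    ring
  have e2 : x j + (1 - s j * x j) / |z j| * z j = s j := by
    have : s j * (s j * (x j + (1 - s j * x j) / |z j| * z j)) = s j * 1 := by rw [e1]
    rw [← mul_assoc, hs2, one_mul, mul_one] at this
    exact this
  refine ⟨by rw [e2, hsabs], by rw [e2, mul_comm, hsz]; exact hzj', ?_⟩
  intro t ht0 ht i
  by_cases hzi : z i = 0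
  · simp [hzi, hx i]
  · have hzi' : 0 < |z i| := abs_pos.mpr hzi
    have h1 : t ≤ (1 - s i * x i) / |z i| := ht.trans (hmin i (by simp [hzi]))
    have h2 : t * |z i| ≤ 1 - s i * x i := by rwa [le_div_iff₀ hzi'] at h1
    have h3 : |x i + t * z i| = |s i * (x i + t * z i)| := by rw [abs_mul, hsabs, one_mul]
    rw [h3]
    have h4 : s i * (x i + t * z i) = s i * x i + t * |z i| := by rw [← hsz]; ring
    rw [h4, abs_le]
    constructor
    · have : 0 ≤ t * |z i| := mul_nonneg ht0 hzi'.le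
      linarith [(hsx i).1]
    · linarith

lemma inQ_add {v : ι → E} {x z : ι → ℝ} (hx : InQ v x) (hz : ∑ i, z i • v i = 0) {t : ℝ}
    (ht : ∀ i, |x i + t * z i| ≤ 1) : InQ v (fun i => x i + t * z i) := by
  refine ⟨ht, ?_⟩
  simp only [add_smul, sum_add_distrib, mul_smul, ← smul_sum, hx.2, hz, smul_zero, add_zero]

/-- A relation among the alive vectors lets us reduce the alive set. -/
lemma reduce {v : ι → E} {x z : ι → ℝ} (hx : InQ v x) (hz : ∑ i, z i • v i = 0)
    (hz0 : ∃ i, z i ≠ 0) (hsupp : ∀ i, i ∉ alive x → z i = 0) :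
    ∃ x', InQ v x' ∧ alive x' ⊂ alive x := by
  obtain ⟨T, j, hT, hzj, h1, -, h3⟩ := hit x z hx.1 hz0
  refine ⟨fun i => x i + T * z i, inQ_add hx hz (h3 T hT le_rfl), ?_⟩
  have hj : j ∈ alive x := by
    by_contra h
    exact hzj (hsupp j h)
  rw [Finset.ssubset_iff_of_subset]
  · refine ⟨j, hj, ?_⟩
    rw [mem_alive, not_lt]
    exact h1.ge
  · intro i hi
    by_contra h
    have := hsupp i h
    rw [mem_alive] at hi h
    simp [this] at hi
    exact h hi

lemma dep [FiniteDimensional ℝ E] (v : ι → E) (S : Finset ι) (h : finrank ℝ E < S.card) :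
    ∃ z : ι → ℝ, (∃ i, z i ≠ 0) ∧ (∀ i, i ∉ S → z i = 0) ∧ ∑ i, z i • v i = 0 := by
  have hl : ¬ LinearIndependent ℝ (fun i : S => v i) := by
    intro hli
    have := hli.fintype_card_le_finrank
    simp at this
    omega
  rw [Fintype.not_linearIndependent_iff] at hl
  obtain ⟨g, hg, i₀, hi₀⟩ := hl
  refine ⟨fun i => if h : i ∈ S then g ⟨i, h⟩ else 0, ⟨i₀, by simpa using hi₀⟩, ?_, ?_⟩
  · intro i hi
    simp [hi]
  · rw [← hg]
    rw [← Finset.sum_subset (Finset.subset_univ S)]
    · rw [← Finset.sum_coe_sort S]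
      refine sum_congr rfl fun i _ => ?_
      simp
    · intro i _ hi
      simp [hi]

lemma beck [FiniteDimensional ℝ E] (v : ι → E) :
    ∃ x : ι → ℝ, InQ v x ∧ (alive x).card ≤ finrank ℝ E := by
  have key : ∀ m : ℕ, ∀ x : ι → ℝ, InQ v x → (alive x).card ≤ m →
      ∃ x : ι → ℝ, InQ v x ∧ (alive x).card ≤ finrank ℝ E := by
    intro m
    induction m with
    | zero => intro x hx h; exact ⟨x, hx, by omega⟩
    | succ m ih =>
      intro x hx h
      by_cases h1 : (alive x).card ≤ finrank ℝ E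
      · exact ⟨x, hx, h1⟩
      · push Not at h1
        obtain ⟨z, hz0, hz1, hz2⟩ := dep v (alive x) h1
        obtain ⟨x', hx', hlt⟩ := reduce hx hz2 hz0 hz1
        have := Finset.card_lt_card hlt
        exact ih x' hx' (by omega)
  exact key _ (fun _ => 0) ⟨by simp, by simp⟩ le_rfl

end Pool.Agent.Helper976.Bal
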